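import Mathlib
import Pool.Agent.Q233.TL.Curves

set_option autoImplicit false

/-! # One quadratic twist for all systems of elliptic curves with bounded coefficients

For all but at most `N ^ (1 - c)` of the integers `D ≠ 0`, `|D| ≤ N`, the following holds for all
`x` with `(log N) ^ C ≤ x ≤ N ^ c`, for all systems of `r` curves `E_j : y² = x³ + A_j x + B_j` with
`|A_j|, |B_j| ≤ x ^ κ` and for all vectors `t ≠ 0` of integers: the number of the primes `p ≤ x` with
`a_p(E_j^D) = t_j` for all `j` is `n / 2 + O(√n x ^ ε)`, where `n` is the number of the primes `p ≤ x`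
at which the vector of the traces `a_p(E_j)` is `t` or `-t`.
-/

namespace Pool.Agent.Results.MP_d74fca_nt.CommonTwist

open Finset Pool.Agent.W406.TW Pool.Agent.Q233.TL

/-- the number of the odd primes `p ≤ x`, not dividing `4 A_j³ + 27 B_j²` for any `j`, at which the
trace of Frobenius `ap (A j) (B j) p` of `y² = x³ + A_j x + B_j` is `t j` for all `j` -/
noncomputable def jointCount {r : ℕ} (A B t : Fin r → ℤ) (x : ℕ) : ℕ := by
  classical
  exact ((Icc 1 x).filter fun p : ℕ => p.Prime ∧ p ≠ 2 ∧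
    ∀ j, ¬ (p : ℤ) ∣ 4 * A j ^ 3 + 27 * B j ^ 2 ∧ ap (A j) (B j) p = t j).card

/-- the predicate for the twist law: `s 0` is the common sign -/
def Ev {r : ℕ} (A B t : Fin r → ℤ) (p : ℕ) (s : Fin 1 → ℤ) : Prop :=
  (∀ j, ¬ (p : ℤ) ∣ 4 * A j ^ 3 + 27 * B j ^ 2) ∧ ∀ j, s 0 * ap (A j) (B j) p = t j

lemma Sg_one : Sg 1 = {fun _ => 1, fun _ => -1} := by
  ext s
  unfold Sg
  rw [Fintype.mem_piFinset, mem_insert, mem_singleton]
  constructor
  · intro h
    have h0 := h 0
    rw [mem_insert, mem_singleton] at h0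
    rcases h0 with h0 | h0
    · left; funext j; rw [Subsingleton.elim j 0]; exact h0
    · right; funext j; rw [Subsingleton.elim j 0]; exact h0
  · rintro (rfl | rfl) j <;> simp

lemma one_ne : (fun _ : Fin 1 => (1 : ℤ)) ≠ fun _ => -1 := by
  intro h
  have := congrFun h 0
  norm_num at this

/-- the two signs -/
lemma count_signs {r : ℕ} (A B t : Fin r → ℤ) (ht : t ≠ 0) (x : ℕ) :
    ((X (Ev A B t) x).card : ℝ) = jointCount A B t x + jointCount A B (-t) x ∧
    mean (Ev A B t) x = ((jointCount A B t x : ℝ) + jointCount A B (-t) x) / 2 := by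
  classical
  obtain ⟨j₀, hj₀⟩ : ∃ j, t j ≠ 0 := by
    by_contra h
    push Not at h
    exact ht (funext h)
  have key : ∀ p : ℕ, ((if p.Prime ∧ p ≠ 2 ∧ (∀ j, ¬ (p : ℤ) ∣ 4 * A j ^ 3 + 27 * B j ^ 2 ∧
      ap (A j) (B j) p = t j) then (1 : ℝ) else 0) +
      (if p.Prime ∧ p ≠ 2 ∧ (∀ j, ¬ (p : ℤ) ∣ 4 * A j ^ 3 + 27 * B j ^ 2 ∧
      ap (A j) (B j) p = (-t) j) then (1 : ℝ) else 0)) =
      if p.Prime ∧ p ≠ 2 then (((Sg 1).filter (fun s => Ev A B t p s)).card : ℝ) else 0 := by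
    intro p
    by_cases hp : p.Prime ∧ p ≠ 2
    · rw [if_pos hp]
      have h1 : (((Sg 1).filter (fun s => Ev A B t p s)).card : ℝ) =
          (if Ev A B t p (fun _ => 1) then (1 : ℝ) else 0) + (if Ev A B t p (fun _ => -1) then (1 : ℝ) else 0) := by
        rw [Sg_one, card_filter]
        push_cast
        rw [sum_pair one_ne]
      rw [h1]
      congr 1
      · apply if_congr _ rfl rfl
        unfold Ev
        constructor
        · rintro ⟨_, _, h⟩
          exact ⟨fun j => (h j).1, fun j => by rw [one_mul]; exact (h j).2⟩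
        · rintro ⟨h2, h3⟩
          exact ⟨hp.1, hp.2, fun j => ⟨h2 j, by have := h3 j; rwa [one_mul] at this⟩⟩
      · apply if_congr _ rfl rfl
        unfold Ev
        constructor
        · rintro ⟨_, _, h⟩
          refine ⟨fun j => (h j).1, fun j => ?_⟩
          rw [(h j).2, Pi.neg_apply]; ring
        · rintro ⟨h2, h3⟩
          refine ⟨hp.1, hp.2, fun j => ⟨h2 j, ?_⟩⟩
          rw [Pi.neg_apply, ← h3 j]; ring
    · rw [if_neg hp, if_neg (fun h => hp ⟨h.1, h.2.1⟩), if_neg (fun h => hp ⟨h.1, h.2.1⟩)]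
      norm_num
  have hsum : (jointCount A B t x : ℝ) + jointCount A B (-t) x =
      ∑ p ∈ Icc 1 x, if p.Prime ∧ p ≠ 2 then (((Sg 1).filter (fun s => Ev A B t p s)).card : ℝ) else 0 := by
    unfold jointCount
    rw [card_filter, card_filter]
    push_cast
    rw [← sum_add_distrib]
    exact sum_congr rfl fun p _ => key p
  constructor
  · rw [hsum]
    unfold X
    rw [card_filter]
    push_cast
    refine sum_congr rfl fun p _ => ?_
    by_cases hp : p.Prime ∧ p ≠ 2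
    · rw [if_pos hp]
      have h1 : ¬ (Ev A B t p (fun _ => 1) ∧ Ev A B t p (fun _ => -1)) := by
        rintro ⟨h2, h3⟩
        have h4 : 1 * ap (A j₀) (B j₀) p = t j₀ := h2.2 j₀
        have h5 : -1 * ap (A j₀) (B j₀) p = t j₀ := h3.2 j₀
        omega
      have h2 : (((Sg 1).filter (fun s => Ev A B t p s)).card : ℝ) =
          (if Ev A B t p (fun _ => 1) then (1 : ℝ) else 0) + (if Ev A B t p (fun _ => -1) then (1 : ℝ) else 0) := by
        rw [Sg_one, card_filter]
        push_cast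
        rw [sum_pair one_ne]
      rw [h2]
      by_cases h3 : Ev A B t p (fun _ => 1)
      · rw [if_pos h3, if_neg (fun h => h1 ⟨h3, h⟩), if_pos ⟨hp.1, hp.2, _, by rw [Sg_one]; simp, h3⟩, add_zero]
      · rw [if_neg h3]
        by_cases h4 : Ev A B t p (fun _ => -1)
        · rw [if_pos h4, if_pos ⟨hp.1, hp.2, _, by rw [Sg_one]; simp, h4⟩, zero_add]
        · rw [if_neg h4, if_neg, add_zero]
          rintro ⟨_, _, s, hs, hE⟩
          rw [Sg_one, mem_insert, mem_singleton] at hs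
          rcases hs with rfl | rfl
          · exact h3 hE
          · exact h4 hE
    · rw [if_neg hp, if_neg (fun h => hp ⟨h.1, h.2.1⟩)]
  · rw [hsum]
    unfold mean
    rw [sum_filter, pow_one]

lemma cnt_eq {r : ℕ} (A B t : Fin r → ℤ) (hr : 0 < r) (D : Fin 1 → ℤ) (x : ℕ) :
    Q233.TL.cnt (Ev A B t) D x =
      jointCount (fun j => A j * D 0 ^ 2) (fun j => B j * D 0 ^ 3) t x := by
  classical
  unfold Q233.TL.cnt jointCount
  congr 1
  ext p
  rw [mem_filter, mem_filter]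
  constructor
  · rintro ⟨h1, h2, h3, h4, h6, h7⟩
    refine ⟨h1, h2, h3, fun j => ⟨(disc_iff _ _ _ h2).2 ⟨h4 0, h6 j⟩, ?_⟩⟩
    rw [ap_twist _ _ _ h2 h3]
    exact h7 j
  · rintro ⟨h1, h2, h3, h5⟩
    refine ⟨h1, h2, h3, fun i => ?_, fun j => ((disc_iff _ _ _ h2).1 (h5 j).1).2, fun j => ?_⟩
    · rw [Subsingleton.elim i 0]
      exact ((disc_iff _ _ _ h2).1 (h5 ⟨0, hr⟩).1).1
    · rw [← ap_twist _ _ _ h2 h3]
      exact (h5 j).2

theorem result (r : ℕ) (κ ε : ℝ) (hκ : 0 ≤ κ) (hε : 0 < ε) :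
    ∃ C c : ℝ, 0 < C ∧ 0 < c ∧ ∃ N₀ : ℕ, ∀ N : ℕ, N₀ ≤ N →
      ({D : ℤ | D ≠ 0 ∧ |D| ≤ N ∧ ∃ x : ℕ, (Real.log N) ^ C ≤ x ∧ (x : ℝ) ≤ (N : ℝ) ^ c ∧
        ∃ A B : Fin r → ℤ, (∀ j, (|A j| : ℝ) ≤ (x : ℝ) ^ κ ∧ (|B j| : ℝ) ≤ (x : ℝ) ^ κ) ∧
        ∃ t : Fin r → ℤ, t ≠ 0 ∧
        √((jointCount A B t x : ℝ) + jointCount A B (-t) x) * (x : ℝ) ^ ε <
          |(jointCount (fun j => A j * D ^ 2) (fun j => B j * D ^ 3) t x : ℝ) -
            (jointCount A B t x + jointCount A B (-t) x) / 2|}.ncard : ℝ) ≤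
        (N : ℝ) ^ (1 - c) := by
  classical
  obtain ⟨C, c, hC, hc, N₀, h⟩ := law 1 ((κ + 2) * (2 * r) + 2 * r) ε (by positivity) hε 3
  obtain ⟨N₁, hN₁⟩ := Filter.eventually_atTop.1
    ((Real.tendsto_log_atTop.comp tendsto_natCast_atTop_atTop).eventually_ge_atTop (1 : ℝ))
  refine ⟨C, c, hC, hc, max N₀ N₁, fun N hN => ?_⟩
  have hN0 : N₀ ≤ N := (le_max_left _ _).trans hN
  have hN1 : 1 ≤ Real.log N := hN₁ N ((le_max_right _ _).trans hN)
  have hmain := h N hN0 ((Fin r → ℤ) × (Fin r → ℤ) × (Fin r → ℤ))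
    (fun x => (Fintype.piFinset fun _ : Fin r => Icc (-(⌊(x : ℝ) ^ κ⌋₊ : ℤ)) ⌊(x : ℝ) ^ κ⌋₊) ×ˢ
      (Fintype.piFinset fun _ : Fin r => Icc (-(⌊(x : ℝ) ^ κ⌋₊ : ℤ)) ⌊(x : ℝ) ^ κ⌋₊) ×ˢ
      (Fintype.piFinset fun _ : Fin r => Icc (-(x : ℤ)) x))
    (fun l => Ev l.1 l.2.1 l.2.2) ?_
  · rw [Nat.cast_one] at hmain
    refine le_trans ?_ hmain
    refine Nat.cast_le.2 (Set.ncard_le_ncard_of_injOn (fun D : ℤ => fun _ : Fin 1 => D) ?_ ?_ ?_)
    · rintro D ⟨hD0, hDN, x, hx1, hx2, A, B, hAB, t, ht, hlt⟩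
      have hr : 0 < r := by
        rcases Nat.eq_zero_or_pos r with h0 | h0
        · subst h0
          exact absurd (Subsingleton.elim t 0) ht
        · exact h0
      have hfl : ∀ a : ℤ, (|a| : ℝ) ≤ (x : ℝ) ^ κ → a ∈ Icc (-(⌊(x : ℝ) ^ κ⌋₊ : ℤ)) ⌊(x : ℝ) ^ κ⌋₊ := by
        intro a ha
        rw [mem_Icc, ← abs_le]
        have h1 : ((a.natAbs : ℕ) : ℝ) ≤ (x : ℝ) ^ κ := by
          rw [Nat.cast_natAbs]; push_cast; exact ha
        have h2 := Nat.le_floor h1
        rw [← Int.natCast_natAbs]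
        exact_mod_cast h2
      refine ⟨fun _ => ⟨hD0, hDN⟩, x, hx1, hx2, (A, B, t), ?_, ?_⟩
      · rw [mem_product, mem_product]
        refine ⟨?_, ?_, ?_⟩
        · rw [Fintype.mem_piFinset]
          exact fun j => hfl _ (hAB j).1
        · rw [Fintype.mem_piFinset]
          exact fun j => hfl _ (hAB j).2
        · rw [Fintype.mem_piFinset]
          intro j
          by_contra hcon
          have h0 : ∀ (A' B' : Fin r → ℤ) (p : ℕ), p ≤ x → |ap (A' j) (B' j) p| ≠ |t j| := by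
            intro A' B' p hp h1
            apply hcon
            rw [mem_Icc, ← abs_le, ← h1]
            exact (ap_abs _ _ _).trans (by exact_mod_cast hp)
          have h1 : ∀ (A' B' : Fin r → ℤ), jointCount A' B' t x = 0 := by
            intro A' B'
            unfold jointCount
            rw [card_eq_zero]
            apply filter_eq_empty_iff.2
            rintro p hp ⟨_, _, h2⟩
            refine h0 A' B' p (mem_Icc.1 hp).2 ?_
            rw [(h2 j).2]
          have h2 : jointCount A B (-t) x = 0 := by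
            unfold jointCount
            rw [card_eq_zero]
            apply filter_eq_empty_iff.2
            rintro p hp ⟨_, _, h2⟩
            refine h0 A B p (mem_Icc.1 hp).2 ?_
            rw [(h2 j).2, Pi.neg_apply, abs_neg]
          rw [h1, h1, h2] at hlt
          simp at hlt
      · obtain ⟨h3, h4⟩ := count_signs A B t ht x
        rw [h3, h4, cnt_eq A B t hr]
        exact hlt
    · intro a _ b _ hab
      exact congrFun hab 0
    · refine Set.Finite.subset (Set.Finite.pi (t := fun _ : Fin 1 => Set.Icc (-(N : ℤ)) N)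
        (fun _ => Set.finite_Icc _ _)) ?_
      rintro D ⟨hD, _⟩ j _
      exact abs_le.1 (hD j).2
  · intro x hx
    have hx3 : (3 : ℝ) ≤ x := by exact_mod_cast hx
    have hx1 : (1 : ℝ) ≤ x := by linarith
    have hx0 : (0 : ℝ) < x := by linarith
    have hb : (((Fintype.piFinset fun _ : Fin r =>
        Icc (-(⌊(x : ℝ) ^ κ⌋₊ : ℤ)) ⌊(x : ℝ) ^ κ⌋₊).card : ℕ) : ℝ) ≤ (x : ℝ) ^ ((κ + 2) * (r : ℝ)) := by
      rw [Fintype.card_piFinset]
      simp only [card_Icc_sym, prod_const, card_univ, Fintype.card_fin]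
      rw [Real.rpow_mul hx0.le, Real.rpow_natCast]
      push_cast
      refine pow_le_pow_left₀ (by positivity) ?_ r
      rw [Real.rpow_add hx0, Real.rpow_two]
      have h1 : (⌊(x : ℝ) ^ κ⌋₊ : ℝ) ≤ (x : ℝ) ^ κ := Nat.floor_le (by positivity)
      have h2 : 1 ≤ (x : ℝ) ^ κ := Real.one_le_rpow hx1 hκ
      have h3 : (x : ℝ) ^ κ * 9 ≤ (x : ℝ) ^ κ * (x : ℝ) ^ 2 :=
        mul_le_mul_of_nonneg_left (by nlinarith) (by positivity)
      linarith
    rw [card_product, card_product, Nat.cast_mul, Nat.cast_mul, Real.rpow_add hx0, ← mul_assoc]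
    refine mul_le_mul ?_ (box_card r x hx) (by positivity) (by positivity)
    rw [show (κ + 2) * (2 * (r : ℝ)) = (κ + 2) * r + (κ + 2) * r by ring, Real.rpow_add hx0]
    exact mul_le_mul hb hb (by positivity) (by positivity)

end Pool.Agent.Results.MP_d74fca_nt.CommonTwist
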