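import Pool.Agent.Q233.TL.Ar

/-!
# Patterns of signs of the Frobenius traces at consecutive primes with prescribed absolute trace

Let `E_j : y² = x³ + A_j x + B_j`, `j < m`, and `t ≠ 0` a vector of integers. `P` is the set of the odd primes
`p ≤ x` of good reduction at which the vector of the traces of the `E_j` is `t` or `-t`. After a quadratic
twist by `D` the vector of the traces at `p ∈ P`, `p ∤ D`, is again `t` or `-t`. For almost all vectors
`(D_1, …, D_k)` all patterns of the signs of the `k` twists at `r` consecutive elements of `P` occur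
equally often, with square root error.
-/

set_option autoImplicit false

namespace Pool.Agent.Results.MP_d74fca_nt.SignPatterns

open Finset Pool.Agent.W406.TW Pool.Agent.Q233.TL Pool.Agent.Q233.TL.Tup

/-- the odd primes `p ≤ x`, good for all curves, at which the vector of the traces of Frobenius
`ap (A j) (B j) p` of `y² = x³ + A_j x + B_j` is `t` or `-t` -/
noncomputable def primesPM {m : ℕ} (A B t : Fin m → ℤ) (x : ℕ) : Finset ℕ := by
  classical
  exact (Icc 1 x).filter fun p : ℕ => p.Prime ∧ p ≠ 2 ∧ (∀ j, ¬ (p : ℤ) ∣ 4 * A j ^ 3 + 27 * B j ^ 2) ∧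
    ((∀ j, ap (A j) (B j) p = t j) ∨ ∀ j, ap (A j) (B j) p = -t j)

/-- the number of the `r`-tuples `τ` of consecutive elements of `primesPM` such that for all `i < r` and all
`l < k` the twists `y² = x³ + A_j (D l)² x + B_j (D l)³` have good reduction at `τ i` and traces
`η (i, l) t_j` -/
noncomputable def patCount {m r k : ℕ} (A B t : Fin m → ℤ) (D : Fin k → ℤ) (η : Fin r × Fin k → ℤ)
    (x : ℕ) : ℕ := by
  classical
  exact ((consec (primesPM A B t x) r).filter fun τ => ∀ z : Fin r × Fin k, ∀ j,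
    ¬ (τ z.1 : ℤ) ∣ 4 * (A j * D z.2 ^ 2) ^ 3 + 27 * (B j * D z.2 ^ 3) ^ 2 ∧
      ap (A j * D z.2 ^ 2) (B j * D z.2 ^ 3) (τ z.1) = η z * t j).card

open Classical in
lemma mem_PM {m : ℕ} {A B t : Fin m → ℤ} {x p : ℕ} : p ∈ primesPM A B t x ↔ (1 ≤ p ∧ p ≤ x) ∧
    p.Prime ∧ p ≠ 2 ∧ (∀ j, ¬ (p : ℤ) ∣ 4 * A j ^ 3 + 27 * B j ^ 2) ∧
    ((∀ j, ap (A j) (B j) p = t j) ∨ ∀ j, ap (A j) (B j) p = -t j) := by
  unfold primesPM
  rw [mem_filter, mem_Icc]

/-- predicate for the twist law -/
def Ev {m r k : ℕ} (A B t : Fin m → ℤ) (η : Fin r × Fin k → ℤ) (τ : Fin r → ℕ)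
    (s : Fin r × Fin k → ℤ) : Prop :=
  ∀ z, ∀ j, s z * ap (A j) (B j) (τ z.1) = η z * t j

/-- exactly one array of signs realises a given pattern -/
lemma unique_sign {m r k : ℕ} {A B t : Fin m → ℤ} (ht : t ≠ 0) {η : Fin r × Fin k → ℤ}
    (hη : η ∈ Sgt r k) {x : ℕ} {τ : Fin r → ℕ} (hτ : τ ∈ consec (primesPM A B t x) r)
    [DecidablePred fun s => Ev A B t η τ s] :
    ((Sgt r k).filter fun s => Ev A B t η τ s).card = 1 := by
  classical
  obtain ⟨j₀, hj₀⟩ : ∃ j, t j ≠ 0 := by
    by_contra h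
    push Not at h
    exact ht (funext h)
  have hd : ∀ i : Fin r, ∃ δ : ℤ, (δ = 1 ∨ δ = -1) ∧ ∀ j, ap (A j) (B j) (τ i) = δ * t j := by
    intro i
    rcases (mem_PM.1 (consec_mem hτ i)).2.2.2.2 with h | h
    · exact ⟨1, Or.inl rfl, fun j => by rw [h j, one_mul]⟩
    · exact ⟨-1, Or.inr rfl, fun j => by rw [h j, neg_one_mul]⟩
  choose δ hδ hδt using hd
  rw [card_eq_one]
  refine ⟨fun z => η z * δ z.1, ?_⟩
  ext s
  rw [mem_filter, mem_singleton]
  constructor
  · rintro ⟨hs, h⟩
    funext z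
    have h1 := h z j₀
    rw [hδt] at h1
    have h2 : s z * δ z.1 = η z := by
      have : (s z * δ z.1) * t j₀ = η z * t j₀ := by rw [mul_assoc]; exact h1
      exact mul_right_cancel₀ hj₀ this
    rw [← h2, mul_assoc]
    rcases hδ z.1 with h3 | h3 <;> rw [h3] <;> ring
  · rintro rfl
    constructor
    · rw [mem_Sgt]
      intro z
      rcases mem_Sgt.1 hη z with h1 | h1 <;> rcases hδ z.1 with h2 | h2 <;> rw [h1, h2] <;> simp
    · intro z j
      rw [hδt]
      have h3 : δ z.1 * δ z.1 = 1 := by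
        rcases hδ z.1 with h2 | h2 <;> rw [h2] <;> norm_num
      change (η z * δ z.1) * (δ z.1 * t j) = η z * t j
      linear_combination η z * t j * h3

theorem result (m r k : ℕ) (hr : 0 < r) (κ ε : ℝ) (hκ : 0 ≤ κ) (hε : 0 < ε) :
    ∃ C c : ℝ, 0 < C ∧ 0 < c ∧ ∃ N₀ : ℕ, ∀ N : ℕ, N₀ ≤ N →
      ({D : Fin k → ℤ | (∀ j, D j ≠ 0 ∧ |D j| ≤ N) ∧ ∃ x : ℕ, (Real.log N) ^ C ≤ x ∧
        (x : ℝ) ≤ (N : ℝ) ^ c ∧ ∃ A B t : Fin m → ℤ,
        (∀ j, |(A j : ℝ)| ≤ (x : ℝ) ^ κ ∧ |(B j : ℝ)| ≤ (x : ℝ) ^ κ) ∧ t ≠ 0 ∧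
        ∃ η : Fin r × Fin k → ℤ, (∀ z, η z = 1 ∨ η z = -1) ∧
        √((consec (primesPM A B t x) r).card : ℝ) * (x : ℝ) ^ ε <
          |(patCount A B t D η x : ℝ) - ((consec (primesPM A B t x) r).card : ℝ) / 2 ^ (r * k)|}.ncard : ℝ) ≤
        (N : ℝ) ^ ((k : ℝ) - c) := by
  classical
  set M : ℝ := (κ + 1) * m + ((κ + 1) * m + ((1 + 1) * m + (r * k : ℕ))) with hM
  obtain ⟨C, c, hC, hc, N₀, h⟩ := Tup.law r k M ε (by positivity) hε 4
  refine ⟨C, c, hC, hc, N₀, fun N hN => ?_⟩
  refine le_trans ?_ (h N hN ((Fin m → ℤ) × (Fin m → ℤ) × (Fin m → ℤ) × (Fin r × Fin k → ℤ))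
    (fun x => ((Fintype.piFinset fun _ : Fin m => ib κ x) ×ˢ (Fintype.piFinset fun _ : Fin m => ib κ x) ×ˢ
      (Fintype.piFinset fun _ : Fin m => ib 1 x) ×ˢ (Sgt r k)).filter (fun l => l.2.2.1 ≠ 0))
    (fun l x => consec (primesPM l.1 l.2.1 l.2.2.1 x) r)
    (fun l => Ev l.1 l.2.1 l.2.2.1 l.2.2.2) ?_)
  · refine Nat.cast_le.2 (Set.ncard_le_ncard ?_ ?_)
    · rintro D ⟨hD, x, hx1, hx2, A, B, t, hAB, ht, η, hη, hlt⟩
      have hηS : η ∈ Sgt r k := mem_Sgt.2 hη
      -- the set is empty for large `t`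
      have htx : ∀ j, |(t j : ℝ)| ≤ (x : ℝ) ^ (1 : ℝ) := by
        intro j
        by_contra hcon
        push Not at hcon
        have hem : primesPM A B t x = ∅ := by
          rw [eq_empty_iff_forall_notMem]
          intro p hp
          obtain ⟨hp1, _, _, _, hp5⟩ := mem_PM.1 hp
          have h1 : |t j| = |ap (A j) (B j) p| := by
            rcases hp5 with h | h
            · rw [h j]
            · rw [h j, abs_neg]
          have h2 := ap_abs (A j) (B j) p
          rw [← h1] at h2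
          have h3 : |(t j : ℝ)| ≤ (x : ℝ) := by
            rw [← Int.cast_abs]
            have : |t j| ≤ (x : ℤ) := h2.trans (by exact_mod_cast hp1.2)
            exact_mod_cast this
          rw [Real.rpow_one] at hcon
          linarith
        have hem2 : consec (primesPM A B t x) r = ∅ := by
          rw [← card_eq_zero, consec_card hr, hem, card_empty]
          omega
        have h3 : patCount A B t D η x = 0 := by
          unfold patCount
          rw [hem2]
          simp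
        rw [h3, hem2] at hlt
        simp at hlt
      refine ⟨hD, x, hx1, hx2, (A, B, t, η), ?_, ?_⟩
      · simp only [mem_filter, mem_product, Fintype.mem_piFinset, mem_ib]
        exact ⟨⟨fun j => (hAB j).1, fun j => (hAB j).2, htx, hηS⟩, ht⟩
      · have hu : ∀ τ ∈ consec (primesPM A B t x) r,
            ((Sgt r k).filter fun s => Ev A B t η τ s).card = 1 := fun τ hτ => unique_sign ht hηS hτ
        have e1 : Tup.X (Ev A B t η) (consec (primesPM A B t x) r) = consec (primesPM A B t x) r := by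
          unfold Tup.X
          refine filter_true_of_mem fun τ hτ => ?_
          obtain ⟨s, hs⟩ := card_pos.1 (by rw [hu τ hτ]; exact Nat.one_pos)
          exact ⟨s, (mem_filter.1 hs).1, (mem_filter.1 hs).2⟩
        have e2 : Tup.mean (Ev A B t η) (consec (primesPM A B t x) r) =
            ((consec (primesPM A B t x) r).card : ℝ) / 2 ^ (r * k) := by
          unfold Tup.mean
          congr 1
          rw [sum_congr rfl fun τ hτ => by rw [hu τ hτ]]
          simp
        have e3 : Tup.cnt (Ev A B t η) (consec (primesPM A B t x) r) D = patCount A B t D η x := by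
          unfold Tup.cnt patCount
          congr 1
          refine filter_congr fun τ hτ => ?_
          have hp : ∀ i, (τ i).Prime ∧ τ i ≠ 2 := fun i =>
            ⟨(mem_PM.1 (consec_mem hτ i)).2.1, (mem_PM.1 (consec_mem hτ i)).2.2.1⟩
          have hgood : ∀ i j, ¬ (τ i : ℤ) ∣ 4 * A j ^ 3 + 27 * B j ^ 2 := fun i j =>
            (mem_PM.1 (consec_mem hτ i)).2.2.2.1 j
          obtain ⟨j₀, hj₀⟩ : ∃ j, t j ≠ 0 := by
            by_contra h
            push Not at h
            exact ht (funext h)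
          constructor
          · rintro ⟨h1, h2⟩ z j
            refine ⟨(disc_iff _ _ _ (hp z.1).1).2 ⟨h1 z.1 z.2, hgood z.1 j⟩, ?_⟩
            rw [ap_twist _ _ _ (hp z.1).1 (hp z.1).2]
            exact h2 z j
          · intro h1
            refine ⟨fun i l => ((disc_iff _ _ _ (hp i).1).1 (h1 (i, l) j₀).1).1, fun z j => ?_⟩
            have h2 := (h1 z j).2
            rw [ap_twist _ _ _ (hp z.1).1 (hp z.1).2] at h2
            exact h2
        rw [e1, e2, e3]
        exact hlt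
    · refine Set.Finite.subset (Set.Finite.pi (t := fun _ : Fin k => Set.Icc (-(N : ℤ)) N)
        (fun _ => Set.finite_Icc _ _)) ?_
      rintro D ⟨hD, _⟩ j _
      exact abs_le.1 (hD j).2
  · intro x hx
    refine ⟨?_, fun l _ => good_consec hr fun p hp => ⟨(mem_PM.1 hp).2.1, (mem_PM.1 hp).2.2.1,
      (mem_PM.1 hp).1.2⟩⟩
    have hx4 : (4 : ℝ) ≤ x := by exact_mod_cast hx
    have hx0 : (0 : ℝ) < x := by linarith
    have hv := card_vec (Fin m) κ hκ x hx
    have hv1 := card_vec (Fin m) 1 zero_le_one x hx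
    rw [Fintype.card_fin] at hv hv1
    have hS : ((Sgt r k).card : ℝ) ≤ (x : ℝ) ^ ((r * k : ℕ) : ℝ) := by
      rw [card_Sgt, Real.rpow_natCast]
      push_cast
      exact pow_le_pow_left₀ (by norm_num) (by linarith) _
    refine le_trans (Nat.cast_le.2 (card_filter_le _ _)) ?_
    simp only [card_product, Nat.cast_mul]
    rw [hM, Real.rpow_add hx0, Real.rpow_add hx0, Real.rpow_add hx0]
    refine mul_le_mul hv (mul_le_mul hv (mul_le_mul hv1 hS ?_ ?_) ?_ ?_) ?_ ?_ <;> positivity

end Pool.Agent.Results.MP_d74fca_nt.SignPatterns
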