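import Pool.Agent.Results.MP_d74fca_nt.CommonTwist
import Pool.Agent.Q319.DR.Twist

/-!
# Fixed Frobenius traces: ALL quadratic twists in windows at the multiples of almost every real number

Let `r` be a natural number, `κ ≥ 0` and `ε > 0`. The trace law for the twist by `D ≠ 0` at `x` says: for all `r` curves
`y² = x³ + A_j x + B_j` with `|A_j|, |B_j| ≤ x ^ κ` and all `t_1, …, t_r`, not all `0`, the number of the primes `p ≤ x` at
which the traces of Frobenius of the twists by `D` of all the curves are the given ones, `a_p(E_j^D) = t_j`, is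
`(π(t) + π(-t)) / 2` with an error of at most `√(π(t) + π(-t)) x ^ ε`, where `π(t)` is the number for the curves themselves.

Let `0 < θ < 1`. We show that there are `C` and `c > 0` such that for all large `N` and all real numbers `y` with
`N ^ (1 - θ) ≤ y ≤ 2 N ^ (1 - θ)` outside a set of measure at most `N ^ (1 - θ - c)`, for all `k ≤ N ^ θ` but at most
`N ^ (θ - c)`, the trace law holds for ALL `D ≠ 0` with `||D| - k y| ≤ N ^ c` at all `x` with `log ^ C N ≤ x ≤ N ^ c`.

From Mathlib: `volume`: the Lebesgue measure. The law for almost all twists, and the definition of `jointCount`, are from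
the file `CommonTwist` of the same problem (a hand-in of helper233); the count of the elements of arbitrary sets of integers
in windows at multiples of real numbers is from the starting files (`Pool.Agent.H438R2.DL`). `twistExceptions` is defined in
`Pool.Agent.Q319.DR.Twist`.
-/

set_option autoImplicit false

namespace Pool.Agent.Results.MP_d74fca_nt.TwistsAtRealMultiples

open MeasureTheory Pool.Agent.Results.MP_d74fca_nt.CommonTwist

/-- The trace law fails for the twist by `D` at `x`. -/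
def Fails (r : ℕ) (κ ε : ℝ) (x : ℕ) (D : ℤ) : Prop :=
  ∃ A B : Fin r → ℤ, (∀ j, (|A j| : ℝ) ≤ (x : ℝ) ^ κ ∧ (|B j| : ℝ) ≤ (x : ℝ) ^ κ) ∧
    ∃ t : Fin r → ℤ, t ≠ 0 ∧
      √((jointCount A B t x : ℝ) + jointCount A B (-t) x) * (x : ℝ) ^ ε <
        |(jointCount (fun j => A j * D ^ 2) (fun j => B j * D ^ 3) t x : ℝ) -
          (jointCount A B t x + jointCount A B (-t) x) / 2|

/-- Let `κ ≥ 0`, `ε > 0` and `0 < θ < 1`. There are `C, c > 0` such that for all large `N` there is a set `E` of measure at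
most `N ^ (1 - θ - c)` such that for all real `y` with `N ^ (1 - θ) ≤ y ≤ 2 N ^ (1 - θ)` which are not in `E`, for all
`k ≤ N ^ θ` but at most `N ^ (θ - c)`, the trace law holds for ALL `D ≠ 0` with `||D| - k y| ≤ N ^ c` at all `x` with
`log ^ C N ≤ x ≤ N ^ c`. -/
theorem result (r : ℕ) (κ ε : ℝ) (hκ : 0 ≤ κ) (hε : 0 < ε) (θ : ℝ) (hθ : 0 < θ) (hθ1 : θ < 1) :
    ∃ C c : ℝ, 0 < C ∧ 0 < c ∧ ∃ N₀ : ℕ, ∀ N : ℕ, N₀ ≤ N →
      ∃ E : Set ℝ, MeasurableSet E ∧ volume E ≤ ENNReal.ofReal ((N : ℝ) ^ (1 - θ - c)) ∧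
        ∀ y : ℝ, (N : ℝ) ^ (1 - θ) ≤ y → y ≤ 2 * (N : ℝ) ^ (1 - θ) → y ∉ E →
          (Pool.Agent.Q319.DR.twistExceptions (Fails r κ ε) ((N : ℝ) ^ θ) y ((N : ℝ) ^ c) (Real.log N ^ C)
            ((N : ℝ) ^ c) : ℝ) ≤ (N : ℝ) ^ (θ - c) :=
  Pool.Agent.Q319.DR.twist_windows (Fails r κ ε) (CommonTwist.result r κ ε hκ hε) θ hθ hθ1

end Pool.Agent.Results.MP_d74fca_nt.TwistsAtRealMultiples
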