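import Pool.Agent.Results.MP_d74fca_nt.CommonTwist
import Pool.Agent.Y854.GM.Cum
import Pool.Agent.Y854.GM.Win

/-!
# The traces of Frobenius of the quadratic twists by ALL integers near the multiples of a sequence

Let `E_j : y² = x³ + A_j x + B_j`, `j ≤ r`. A positive integer `D` is good (for `r, κ, ε` and the constants `C, c`) if
for all `x` with `C (log D) ^ C ≤ x ≤ D ^ c`, all systems of `r` curves with `|A_j|, |B_j| ≤ x ^ κ`, all vectors `t ≠ 0`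
of integers and both signs `s = ±1` the number of the primes `p ≤ x` with `a_p(E_j^(sD)) = t_j` for all `j` is
`n / 2 + O(√n x ^ ε)`, where `n` is the number of the primes `p ≤ x` at which the vector of the traces `a_p(E_j)` is `t`
or `-t`.

1. For every sequence `v ≥ 1` of exponent of convergence at most `τ` and every `θ < 1`, for all `α > 0` outside a
   set of Hausdorff dimension at most `(1 - c + τ) / (1 - θ)`, all but finitely many of the integers `D` with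
   `|D - α v_n| ≤ v_n ^ θ` for some `n` are good.
2. For real `k > 1` there is one set of dimension less than one such that for all `α > 0` outside of it, all `r` and all
   rational `κ ≥ 0`, `ε > 0`, all but at most `N ^ (1 - δ)` of the integers `⌊α n ^ k⌋`, `n ≤ N`, are good.
-/

set_option autoImplicit false

open Finset Filter

namespace Pool.Agent.Results.MP_d74fca_nt.TwistsNearSequences

open Pool.Agent.Results.MP_d74fca_nt.CommonTwist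

/-- the law for the traces of the twists by `s D`, `s = ±1` -/
def Good (r : ℕ) (κ ε C c : ℝ) (D : ℕ) : Prop :=
  ∀ x : ℕ, C * Real.log D ^ C ≤ x → (x : ℝ) ≤ (D : ℝ) ^ c →
    ∀ A B : Fin r → ℤ, (∀ j, (|A j| : ℝ) ≤ (x : ℝ) ^ κ ∧ (|B j| : ℝ) ≤ (x : ℝ) ^ κ) →
    ∀ t : Fin r → ℤ, t ≠ 0 → ∀ s : ℤ, s = 1 ∨ s = -1 →
      |(jointCount (fun j => A j * (s * D) ^ 2) (fun j => B j * (s * D) ^ 3) t x : ℝ) -
          (jointCount A B t x + jointCount A B (-t) x) / 2| ≤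
        √((jointCount A B t x : ℝ) + jointCount A B (-t) x) * (x : ℝ) ^ ε

/-- the exponent of convergence of the sequence `v` is at most `τ` -/
def ExpLe (v : ℕ → ℝ) (τ : ℝ) : Prop := ∀ t : ℝ, τ < t → Summable (fun n : ℕ => (v n) ^ (-t))

/-- the exceptional integers -/
def Bad (r : ℕ) (κ ε C c : ℝ) : Set ℕ := {D : ℕ | ¬ Good r κ ε C c D}

open Classical in
/-- few exceptional integers in dyadic intervals -/
lemma dyad (r : ℕ) (κ ε : ℝ) (hκ : 0 ≤ κ) (hε : 0 < ε) : ∃ C c : ℝ, 0 < C ∧ 0 < c ∧ ∃ K₀ : ℕ, ∀ K : ℕ, K₀ ≤ K →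
    (((Ioc K (2 * K)).filter (fun D => D ∈ Bad r κ ε C c)).card : ℝ) ≤ (K : ℝ) ^ (1 - c) := by
  obtain ⟨C₀, c₀, hC₀, hc₀, N₀, h⟩ := Pool.Agent.Results.MP_d74fca_nt.CommonTwist.result r κ ε hκ hε
  set C : ℝ := max C₀ (2 ^ C₀) with hC
  have hCpos : 0 < C := lt_max_of_lt_left hC₀
  have hev : ∀ᶠ K : ℕ in atTop, (2 : ℝ) * 2 ≤ (K : ℝ) ^ (c₀ / 2) ∧ (3 : ℝ) ≤ K :=
    ((tendsto_rpow_atTop (by positivity)).comp tendsto_natCast_atTop_atTop).eventually_ge_atTop (2 * 2 : ℝ)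
      |>.and (tendsto_natCast_atTop_atTop.eventually_ge_atTop (3 : ℝ))
  obtain ⟨K₁, hK₁⟩ := eventually_atTop.1 hev
  refine ⟨C, c₀ / 2, hCpos, by positivity, max N₀ K₁, fun K hK => ?_⟩
  obtain ⟨hK4, hK3⟩ := hK₁ K ((le_max_right _ _).trans hK)
  have hKN : N₀ ≤ 2 * K := by have := (le_max_left N₀ K₁).trans hK; omega
  have hK0 : (0 : ℝ) < K := by linarith
  have hm := h (2 * K) hKN
  set S : Set ℤ := {D : ℤ | D ≠ 0 ∧ |D| ≤ ((2 * K : ℕ) : ℤ) ∧ ∃ x : ℕ, (Real.log ((2 * K : ℕ) : ℝ)) ^ C₀ ≤ x ∧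
      (x : ℝ) ≤ (((2 * K : ℕ) : ℝ)) ^ c₀ ∧
        ∃ A B : Fin r → ℤ, (∀ j, (|A j| : ℝ) ≤ (x : ℝ) ^ κ ∧ (|B j| : ℝ) ≤ (x : ℝ) ^ κ) ∧
        ∃ t : Fin r → ℤ, t ≠ 0 ∧
        √((jointCount A B t x : ℝ) + jointCount A B (-t) x) * (x : ℝ) ^ ε <
          |(jointCount (fun j => A j * D ^ 2) (fun j => B j * D ^ 3) t x : ℝ) -
            (jointCount A B t x + jointCount A B (-t) x) / 2|} with hS
  have hSfin : S.Finite := by
    refine (Set.finite_Icc (-((2 * K : ℕ) : ℤ)) ((2 * K : ℕ) : ℤ)).subset ?_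
    rintro D ⟨_, hD, _⟩
    exact abs_le.1 hD
  have hsub : ∀ D ∈ (Ioc K (2 * K)).filter (fun D => D ∈ Bad r κ ε C (c₀ / 2)),
      ((D : ℤ) ∈ S ∨ (-(D : ℤ)) ∈ S) := by
    intro D hD
    rw [mem_filter, mem_Ioc] at hD
    obtain ⟨⟨hD1, hD2⟩, hD3⟩ := hD
    have hD3' : ¬ Good r κ ε C (c₀ / 2) D := hD3
    unfold Good at hD3'
    push Not at hD3'
    obtain ⟨x, hx1, hx2, A, B, hAB, t, ht, s, hs, hlt⟩ := hD3'
    have hDK : (K : ℝ) < D := by exact_mod_cast hD1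
    have hDK2 : (D : ℝ) ≤ 2 * K := by exact_mod_cast hD2
    have hlogD : 1 ≤ Real.log D := by
      rw [Real.le_log_iff_exp_le (by linarith)]
      linarith [Real.exp_one_lt_d9]
    have hlog2 : Real.log ((2 * K : ℕ) : ℝ) ≤ 2 * Real.log D := by
      have h1 : ((2 * K : ℕ) : ℝ) ≤ (D : ℝ) ^ 2 := by push_cast; nlinarith
      have h2 := Real.log_le_log (by push_cast; positivity) h1
      rw [Real.log_pow] at h2
      exact_mod_cast h2
    have hlogK : 0 ≤ Real.log ((2 * K : ℕ) : ℝ) := by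
      apply Real.log_nonneg
      push_cast
      linarith
    have hx1' : (Real.log ((2 * K : ℕ) : ℝ)) ^ C₀ ≤ x := by
      refine le_trans ?_ hx1
      calc (Real.log ((2 * K : ℕ) : ℝ)) ^ C₀ ≤ (2 * Real.log D) ^ C₀ :=
            Real.rpow_le_rpow hlogK hlog2 hC₀.le
        _ = 2 ^ C₀ * Real.log D ^ C₀ := Real.mul_rpow (by norm_num) (by linarith)
        _ ≤ C * Real.log D ^ C := by
            apply mul_le_mul (le_max_right _ _) _ (by positivity) hCpos.le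
            exact Real.rpow_le_rpow_of_exponent_le hlogD (le_max_left _ _)
    have hx2' : (x : ℝ) ≤ (((2 * K : ℕ) : ℝ)) ^ c₀ := by
      refine hx2.trans ?_
      calc (D : ℝ) ^ (c₀ / 2) ≤ (D : ℝ) ^ c₀ := Real.rpow_le_rpow_of_exponent_le (by linarith) (by linarith)
        _ ≤ (((2 * K : ℕ) : ℝ)) ^ c₀ := Real.rpow_le_rpow (by linarith) (by push_cast; exact hDK2) hc₀.le
    have hDpos : (D : ℤ) ≠ 0 := by
      have : 0 < D := by omega
      exact_mod_cast this.ne'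
    rcases hs with rfl | rfl
    · left
      refine ⟨hDpos, ?_, x, hx1', hx2', A, B, hAB, t, ht, ?_⟩
      · rw [abs_of_nonneg (by positivity)]
        exact_mod_cast hD2
      · simpa using hlt
    · right
      refine ⟨neg_ne_zero.2 hDpos, ?_, x, hx1', hx2', A, B, hAB, t, ht, ?_⟩
      · rw [abs_neg, abs_of_nonneg (by positivity)]
        exact_mod_cast hD2
      · simpa using hlt
  have hcard : (((Ioc K (2 * K)).filter (fun D => D ∈ Bad r κ ε C (c₀ / 2))).card : ℝ) ≤ 2 * S.ncard := by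
    set F := (Ioc K (2 * K)).filter (fun D => D ∈ Bad r κ ε C (c₀ / 2)) with hF
    have h1 : F ⊆ F.filter (fun D : ℕ => (D : ℤ) ∈ S) ∪ F.filter (fun D : ℕ => (-(D : ℤ)) ∈ S) := by
      intro D hD
      rcases hsub D hD with h2 | h2
      · exact mem_union_left _ (mem_filter.2 ⟨hD, h2⟩)
      · exact mem_union_right _ (mem_filter.2 ⟨hD, h2⟩)
    have h2 : (F.filter (fun D : ℕ => (D : ℤ) ∈ S)).card ≤ S.ncard := by
      rw [← Set.ncard_coe_finset]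
      refine Set.ncard_le_ncard_of_injOn (fun D : ℕ => (D : ℤ)) ?_ ?_ hSfin
      · intro D hD
        rw [mem_coe, mem_filter] at hD
        exact hD.2
      · intro a _ b _ hab
        have h9 : (a : ℤ) = b := hab
        exact_mod_cast h9
    have h3 : (F.filter (fun D : ℕ => (-(D : ℤ)) ∈ S)).card ≤ S.ncard := by
      rw [← Set.ncard_coe_finset]
      refine Set.ncard_le_ncard_of_injOn (fun D : ℕ => (-(D : ℤ))) ?_ ?_ hSfin
      · intro D hD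
        rw [mem_coe, mem_filter] at hD
        exact hD.2
      · intro a _ b _ hab
        simpa using hab
    have h4 := (card_le_card h1).trans (card_union_le _ _)
    have h5 : F.card ≤ 2 * S.ncard := by omega
    exact_mod_cast h5
  have hm' : (S.ncard : ℝ) ≤ (((2 * K : ℕ)) : ℝ) ^ (1 - c₀) := hm
  have hpow : (((2 * K : ℕ)) : ℝ) ^ (1 - c₀) ≤ 2 * (K : ℝ) ^ (1 - c₀) := by
    push_cast
    rw [Real.mul_rpow (by norm_num) hK0.le]
    apply mul_le_mul_of_nonneg_right _ (by positivity)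
    calc (2 : ℝ) ^ (1 - c₀) ≤ 2 ^ (1 : ℝ) := Real.rpow_le_rpow_of_exponent_le (by norm_num) (by linarith)
      _ = 2 := Real.rpow_one 2
  calc (((Ioc K (2 * K)).filter (fun D => D ∈ Bad r κ ε C (c₀ / 2))).card : ℝ) ≤ 2 * S.ncard := hcard
    _ ≤ 2 * (2 * (K : ℝ) ^ (1 - c₀)) := by linarith
    _ = (2 * 2) * (K : ℝ) ^ (1 - c₀) := by ring
    _ ≤ (K : ℝ) ^ (c₀ / 2) * (K : ℝ) ^ (1 - c₀) := mul_le_mul_of_nonneg_right hK4 (by positivity)
    _ = (K : ℝ) ^ (1 - c₀ / 2) := by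
        rw [← Real.rpow_add hK0]
        congr 1
        ring

/-- smaller ranges -/
lemma Good.mono {r : ℕ} {κ ε C c c' : ℝ} (hcc : c' ≤ c) {D : ℕ} (hD : 1 ≤ D) (h : Good r κ ε C c D) :
    Good r κ ε C c' D := by
  intro x h1 h2
  refine h x h1 (h2.trans ?_)
  exact Real.rpow_le_rpow_of_exponent_le (by exact_mod_cast hD) hcc

open Classical in
/-- few exceptional integers -/
lemma count (r : ℕ) (κ ε : ℝ) (hκ : 0 ≤ κ) (hε : 0 < ε) : ∃ C c : ℝ, 0 < C ∧ 0 < c ∧ c < 1 ∧ ∃ M : ℝ, 0 < M ∧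
    ∀ Y : ℕ, (((Ioc 0 Y).filter (fun D => D ∈ Bad r κ ε C c)).card : ℝ) ≤ M * (Y : ℝ) ^ (1 - c) := by
  obtain ⟨C, c, hC, hc, K₀, h⟩ := dyad r κ ε hκ hε
  obtain ⟨η, hη, M, hM⟩ := Pool.Agent.Y854.GM.cum_pow _ hc K₀ h
  set c' : ℝ := min (min c η) (1 / 2) with hc'
  have h1 : c' ≤ c := (min_le_left _ _).trans (min_le_left _ _)
  have h2 : c' ≤ η := (min_le_left _ _).trans (min_le_right _ _)
  have h3 : c' ≤ 1 / 2 := min_le_right _ _
  refine ⟨C, c', hC, by positivity, by linarith, |M| + 1, by positivity, fun Y => ?_⟩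
  rcases Nat.eq_zero_or_pos Y with rfl | hY
  · simp only [Ioc_self, filter_empty, card_empty, Nat.cast_zero]
    positivity
  have hY1 : (1 : ℝ) ≤ Y := by exact_mod_cast hY
  calc (((Ioc 0 Y).filter (fun D => D ∈ Bad r κ ε C c')).card : ℝ)
      ≤ (((Ioc 0 Y).filter (fun D => D ∈ Bad r κ ε C c)).card : ℝ) := by
        refine Nat.cast_le.2 (card_le_card fun D hD => ?_)
        rw [mem_filter, mem_Ioc] at hD ⊢
        exact ⟨hD.1, fun hg => hD.2 (Good.mono h1 hD.1.1 hg)⟩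
    _ ≤ M * (Y : ℝ) ^ (1 - η) := hM Y
    _ ≤ (|M| + 1) * (Y : ℝ) ^ (1 - c') := by
        apply mul_le_mul ((le_abs_self M).trans (by linarith)) _ (by positivity) (by positivity)
        exact Real.rpow_le_rpow_of_exponent_le hY1 (by linarith)

open Classical in
/-- **The traces of Frobenius of the twists by all integers near the multiples of a sequence.** -/
theorem result :
    (∀ (r : ℕ) (κ ε : ℝ), 0 ≤ κ → 0 < ε → ∃ C c : ℝ, 0 < C ∧ 0 < c ∧ c < 1 ∧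
      ∀ (v : ℕ → ℝ) (τ θ : ℝ), (∀ n, 1 ≤ v n) → 0 ≤ τ → ExpLe v τ → θ < 1 →
      ∃ E : Set ℝ, dimH E ≤ ENNReal.ofReal ((1 - c + τ) / (1 - θ)) ∧ ∀ α : ℝ, 0 < α → α ∉ E →
        ∃ n₀ : ℕ, ∀ n : ℕ, n₀ ≤ n → ∀ D : ℕ, |(D : ℝ) - α * v n| ≤ (v n) ^ θ → Good r κ ε C c D) ∧
    (∀ k : ℝ, 1 < k → ∃ E : Set ℝ, dimH E < 1 ∧ ∀ (r : ℕ) (κ ε : ℚ), 0 ≤ κ → 0 < ε →
      ∃ C c : ℝ, 0 < C ∧ 0 < c ∧ ∀ α : ℝ, 0 < α → α ∉ E →
      ∃ δ : ℝ, 0 < δ ∧ δ < 1 ∧ ∃ N₀ : ℕ, ∀ N : ℕ, N₀ ≤ N →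
        (((Icc 1 N).filter (fun n : ℕ => ¬ Good r κ ε C c ⌊α * (n : ℝ) ^ k⌋₊)).card : ℝ) ≤ (N : ℝ) ^ (1 - δ)) ∧
    (∀ κ : ℝ, 0 < κ → ExpLe (fun n : ℕ => ((n : ℝ) + 1) ^ κ) (1 / κ)) ∧
    (∀ b : ℝ, 1 < b → ExpLe (fun n : ℕ => b ^ n) 0) := by
  refine ⟨fun r κ ε hκ hε => ?_, fun k hk => ?_,
    fun κ hκ => Pool.Agent.Y854.GM.expLe_pow κ hκ, fun b hb => Pool.Agent.Y854.GM.expLe_geom b hb⟩
  · obtain ⟨C, c, hC, hc, hc1, M, hM, h⟩ := count r κ ε hκ hε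
    refine ⟨C, c, hC, hc, hc1, fun v τ θ hv hτ hE hθ => ?_⟩
    obtain ⟨E, hEd, hE2⟩ := Pool.Agent.Y854.GM.win_nat (Bad r κ ε C c) hv hτ hE (s := 1 - c) (by linarith) hθ
      (fun ζ hζ => ⟨M, fun Y hY => by
        have hY1 : (1 : ℝ) ≤ Y := by exact_mod_cast hY
        refine (h Y).trans ?_
        apply mul_le_mul_of_nonneg_left _ hM.le
        exact Real.rpow_le_rpow_of_exponent_le hY1 (by linarith)⟩)
    refine ⟨E, hEd, fun α hα hαE => ?_⟩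
    obtain ⟨n₀, hn⟩ := hE2 α hα hαE
    refine ⟨n₀, fun n hn1 m hm => ?_⟩
    have h3 := (hn n hn1 m hm).2
    by_contra hcon
    exact h3 hcon
  · have hch : ∀ t : {t : ℕ × ℚ × ℚ // 0 ≤ t.2.1 ∧ 0 < t.2.2}, ∃ C c : ℝ, 0 < C ∧ 0 < c ∧ ∃ M : ℝ,
        ∀ Y : ℕ, (((Ioc 0 Y).filter (fun D => D ∈ Bad t.1.1 t.1.2.1 t.1.2.2 C c)).card : ℝ) ≤
          M * (Y : ℝ) ^ (1 - c) := by
      rintro ⟨⟨r, κ, ε⟩, hκ, hε⟩
      obtain ⟨C, c, hC, hc, _, M, _, h⟩ := count r κ ε (by exact_mod_cast hκ) (by exact_mod_cast hε)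
      exact ⟨C, c, hC, hc, M, h⟩
    choose C c hC hc M hM using hch
    obtain ⟨E, hE, h⟩ := Pool.Agent.Y854.GM.sets_pow k hk
      (fun t : {t : ℕ × ℚ × ℚ // 0 ≤ t.2.1 ∧ 0 < t.2.2} => Bad t.1.1 t.1.2.1 t.1.2.2 (C t) (c t))
    refine ⟨E, hE, fun r κ ε hκ hε => ?_⟩
    set t : {t : ℕ × ℚ × ℚ // 0 ≤ t.2.1 ∧ 0 < t.2.2} := ⟨(r, κ, ε), hκ, hε⟩ with ht
    refine ⟨C t, c t, hC t, hc t, fun α hα hαE => ?_⟩
    obtain ⟨δ, hδ, hδ1, N₀, hN⟩ := h α hα hαE t (c t) (M t) (hc t) ⟨1, fun Y _ => hM t Y⟩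
    refine ⟨δ, hδ, hδ1, N₀, fun N hNN => le_trans ?_ (hN N hNN)⟩
    refine Nat.cast_le.2 (card_le_card fun n hn => ?_)
    rw [mem_filter] at hn ⊢
    exact ⟨hn.1, hn.2⟩

end Pool.Agent.Results.MP_d74fca_nt.TwistsNearSequences
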